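import Mathlib
import Pool.Agent.Hhelper8.Interface

/-!
# Part B1: the bracket is well defined on the free algebra of the variety `V`
-/

set_option linter.unusedSectionVars false
set_option linter.unusedSimpArgs false

namespace Pool.Agent.Hhelper78.Malcev

open Pool.Agent.Hhelper8

universe u v

section linear

variable {F : Type u} [Field F] {G : Type v} [NonUnitalNonAssocRing G] [Module F G]

lemma P6_add1 (a a' b c u : G) : P6 (a + a') b c u = P6 a b c u + P6 a' b c u := by
  simp only [P6, S4, add_mul, mul_add]; abel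

lemma P6_add2 (a b b' c u : G) : P6 a (b + b') c u = P6 a b c u + P6 a b' c u := by
  simp only [P6, S4, add_mul, mul_add]; abel

lemma P6_add3 (a b c c' u : G) : P6 a b (c + c') u = P6 a b c u + P6 a b c' u := by
  simp only [P6, S4, add_mul, mul_add]; abel

lemma P6_add4 (a b c u u' : G) : P6 a b c (u + u') = P6 a b c u + P6 a b c u' := by
  simp only [P6, S4, add_mul, mul_add]; abel

lemma P6_zero1 (b c u : G) : P6 0 b c u = 0 := by simp [P6, S4]

lemma P6_zero2 (a c u : G) : P6 a 0 c u = 0 := by simp [P6, S4]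

lemma P6_zero4 (a b c : G) : P6 a b c 0 = 0 := by simp [P6, S4]

lemma P6_neg1 (a b c u : G) : P6 (-a) b c u = -P6 a b c u := by
  simp only [P6, S4, neg_mul]; abel

lemma P6_sub4 (a b c u u' : G) : P6 a b c (u - u') = P6 a b c u - P6 a b c u' := by
  simp only [P6, S4, mul_sub, sub_mul]; abel

variable [IsScalarTower F G G] [SMulCommClass F G G]

lemma P6_smul1 (t : F) (a b c u : G) : P6 (t • a) b c u = t • P6 a b c u := by
  simp only [P6, S4, smul_mul_assoc, mul_smul_comm, smul_add, smul_sub]

lemma P6_smul2 (t : F) (a b c u : G) : P6 a (t • b) c u = t • P6 a b c u := by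
  simp only [P6, S4, smul_mul_assoc, mul_smul_comm, smul_add, smul_sub]

lemma P6_smul3 (t : F) (a b c u : G) : P6 a b (t • c) u = t • P6 a b c u := by
  simp only [P6, S4, smul_mul_assoc, mul_smul_comm, smul_add, smul_sub]

lemma P6_smul4 (t : F) (a b c u : G) : P6 a b c (t • u) = t • P6 a b c u := by
  simp only [P6, S4, smul_mul_assoc, mul_smul_comm, smul_add, smul_sub]

variable (F)

/-- `P6 a b` as a bilinear map. -/
def P6L (a b : G) : G →ₗ[F] G →ₗ[F] G :=
  LinearMap.mk₂ F (fun c u => P6 a b c u) (fun _ _ _ => P6_add3 ..) (fun _ _ _ => P6_smul3 ..)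
    (fun _ _ _ => P6_add4 ..) (fun _ _ _ => P6_smul4 ..)

@[simp] lemma P6L_apply (a b c u : G) : P6L F a b c u = P6 a b c u := rfl

end linear

section ext

variable (F : Type u) [Field F] (G : Type v) [NonUnitalNonAssocRing G] [Module F G]

/-- The extension `G × Hom` with the product `(a,φ)(b,ψ) = (ab, P6 a b)`. -/
def Ext : Type v := G × (G →ₗ[F] G →ₗ[F] G)

namespace Ext

instance : AddCommGroup (Ext F G) := inferInstanceAs (AddCommGroup (G × (G →ₗ[F] G →ₗ[F] G)))

instance : Module F (Ext F G) := inferInstanceAs (Module F (G × (G →ₗ[F] G →ₗ[F] G)))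

variable {F G}

@[ext] lemma ext {a b : Ext F G} (h1 : a.1 = b.1) (h2 : ∀ c u, a.2 c u = b.2 c u) : a = b :=
  Prod.ext h1 (LinearMap.ext₂ h2)

@[simp] lemma add_fst (a b : Ext F G) : (a + b).1 = a.1 + b.1 := rfl
@[simp] lemma add_snd (a b : Ext F G) : (a + b).2 = a.2 + b.2 := rfl
@[simp] lemma sub_fst (a b : Ext F G) : (a - b).1 = a.1 - b.1 := rfl
@[simp] lemma sub_snd (a b : Ext F G) : (a - b).2 = a.2 - b.2 := rfl
@[simp] lemma zero_fst : (0 : Ext F G).1 = 0 := rfl
@[simp] lemma zero_snd : (0 : Ext F G).2 = 0 := rfl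
@[simp] lemma smul_fst (t : F) (a : Ext F G) : (t • a).1 = t • a.1 := rfl
@[simp] lemma smul_snd (t : F) (a : Ext F G) : (t • a).2 = t • a.2 := rfl

variable [IsScalarTower F G G] [SMulCommClass F G G]

instance : Mul (Ext F G) := ⟨fun a b => (a.1 * b.1, P6L F a.1 b.1)⟩

@[simp] lemma mul_fst (a b : Ext F G) : (a * b).1 = a.1 * b.1 := rfl
@[simp] lemma mul_snd (a b : Ext F G) (c u : G) : (a * b).2 c u = P6 a.1 b.1 c u := rfl

instance : NonUnitalNonAssocRing (Ext F G) where
  left_distrib a b c := by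
    ext <;> simp [mul_add, P6_add2]
  right_distrib a b c := by
    ext <;> simp [add_mul, P6_add1]
  zero_mul a := by
    ext
    · simp
    · simp [P6_zero1]
  mul_zero a := by
    ext
    · simp
    · simp [P6_zero2]

instance : IsScalarTower F (Ext F G) (Ext F G) where
  smul_assoc t a b := by
    ext <;> simp [smul_mul_assoc, P6_smul1]

instance : SMulCommClass F (Ext F G) (Ext F G) where
  smul_comm t a b := by
    ext <;> simp [mul_smul_comm, P6_smul2]

/-- The first projection. -/
def fstHom : Ext F G →ₙₐ[F] G where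
  toFun a := a.1
  map_smul' _ _ := rfl
  map_zero' := rfl
  map_add' _ _ := rfl
  map_mul' _ _ := rfl

lemma fstHom_apply (a : Ext F G) : fstHom a = a.1 := rfl

lemma P6_self [CharZero F] (hG : VIds G) (a c u : G) : P6 a a c u = 0 := by
  have h := hG.idb a a c u
  have h2 : (2 : F) • P6 a a c u = 0 := by
    rw [two_smul]
    nth_rewrite 1 [h]
    exact neg_add_cancel _
  exact (smul_eq_zero.1 h2).resolve_left two_ne_zero

omit [IsScalarTower F G G] [SMulCommClass F G G] in
lemma anti (hG : VIds G) (a b : G) : a * b = -(b * a) := by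
  have h := hG.mul_self (a + b)
  rw [add_mul, mul_add, mul_add, hG.mul_self, hG.mul_self, zero_add, add_zero] at h
  exact eq_neg_of_add_eq_zero_left h

omit [IsScalarTower F G G] [SMulCommClass F G G] in
/-- `P6 x y z` commutes with `P6`. -/
lemma P6_P6 (hG : VIds G) (x y z t t' c u : G) :
    P6 (P6 x y z t) t' c u = P6 x y z (P6 t t' c u) := by
  have h := hG.ida x y z
  have e : ∀ a b, P6 x y z a * b = P6 x y z (a * b) := fun a b => (h a b).symm
  conv_lhs => rw [P6, S4, S4, S4]
  conv_rhs => rw [show P6 t t' c u = S4 t c t' u + S4 t u t' c - S4 t t' c u from rfl,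
    S4, S4, S4]
  simp only [e, P6_add4, P6_sub4]

theorem isV [CharZero F] (hG : VIds G) : IsV (Ext F G) where
  mul_self a := by
    ext
    · simp [hG.mul_self]
    · simp [P6_self (F := F) hG]
  malcev x y z := by
    ext c u
    · have h1 := congrArg fstHom (rfl : J x y (x * z) = J x y (x * z))
      show fstHom (J x y (x * z)) = fstHom (J x y z * x)
      rw [map_J, map_mul, map_mul, map_J, hG.malcev]
    · have h1 := hG.idF3a x.1 x.1 y.1 z.1 c u
      rw [hG.mul_self, zero_mul] at h1
      rw [P6_zero1, zero_add] at h1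
      have h2 : x.1 * z.1 * x.1 = -(z.1 * x.1 * x.1) := by
        rw [anti hG x.1 z.1, neg_mul]
      have h3 : y.1 * (x.1 * z.1) = z.1 * x.1 * y.1 := by
        rw [anti hG y.1, anti hG x.1 z.1, neg_mul, neg_neg]
      simp only [J, add_snd, LinearMap.add_apply, mul_snd, mul_fst, add_fst, P6_add1]
      rw [h1, h2, h3, P6_neg1]
      abel
  f5 x y z w := by
    ext c u
    · show fstHom (P6 x y z w * w) = 0
      rw [map_mul, map_P6, hG.f5]
    · have h1 : (P6 x y z w).1 = P6 x.1 y.1 z.1 w.1 := by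
        show fstHom (P6 x y z w) = _
        rw [map_P6]; rfl
      rw [mul_snd, h1, P6_P6 hG, P6_self (F := F) hG, P6_zero4]
      rfl

end Ext

end ext

/-- **Part B1.** -/
theorem partB1 : PartB1.{u, v} := by
  intro F _ _ X hG
  let σ : FreeV F X →ₙₐ[F] Ext F (FreeV F X) :=
    FreeV.lift (Ext.isV hG) (fun x => (FreeV.of x, 0))
  have h1 : Ext.fstHom.comp σ = NonUnitalAlgHom.id F (FreeV F X) := by
    apply FreeV.hom_ext
    intro x
    rw [NonUnitalAlgHom.comp_apply, FreeV.lift_of]
    rfl
  have h2 : ∀ a, (σ a).1 = a := fun a => DFunLike.congr_fun h1 a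
  let pr0 : FreeV F X →ₗ[F] FreeV F X →ₗ[F] FreeV F X →ₗ[F] FreeV F X :=
    { toFun := fun a => (σ a).2
      map_add' := fun a b => by rw [map_add]; rfl
      map_smul' := fun t a => by rw [map_smul]; rfl }
  refine ⟨(6 : F)⁻¹ • pr0, ?_⟩
  intro a b c x
  have h3 : pr0 (a * b) c x = P6 a b c x := by
    show (σ (a * b)).2 c x = P6 a b c x
    rw [map_mul, Ext.mul_snd, h2, h2]
  rw [LinearMap.smul_apply, LinearMap.smul_apply, LinearMap.smul_apply, h3, smul_smul,
    mul_inv_cancel₀ (by norm_num), one_smul]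

end Pool.Agent.Hhelper78.Malcev
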