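import Mathlib
import Pool.Agent.Hhelper8.Interface

/-!
# Vector product algebras belong to the variety `V`
-/

set_option linter.unusedSectionVars false
set_option linter.unusedSimpArgs false

namespace Pool.Agent.Hhelper78.Malcev

open Pool.Agent.Hhelper8

universe u v

section vpa

variable {R V : Type*} [CommRing R] [AddCommGroup V] [Module R V]

/-- The algebra of a vector product algebra. -/
def VAlg (_ : VPA R V) : Type _ := V

namespace VAlg

variable (A : VPA R V)

instance : AddCommGroup (VAlg A) := inferInstanceAs (AddCommGroup V)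

instance : Module R (VAlg A) := inferInstanceAs (Module R V)

instance : Mul (VAlg A) := ⟨fun x y => A.mul x y⟩

lemma mul_def (x y : VAlg A) : x * y = A.mul x y := rfl

instance : NonUnitalNonAssocRing (VAlg A) where
  left_distrib a b c := by simp only [mul_def]; exact map_add _ _ _
  right_distrib a b c := by
    simp only [mul_def]
    exact (congrArg (fun f : V →ₗ[R] V => f c) (map_add A.mul a b))
  zero_mul a := by
    simp only [mul_def]
    exact (congrArg (fun f : V →ₗ[R] V => f a) (map_zero A.mul))
  mul_zero a := by simp only [mul_def]; exact map_zero _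

instance : IsScalarTower R (VAlg A) (VAlg A) where
  smul_assoc t a b := by
    simp only [smul_eq_mul, mul_def]
    exact (congrArg (fun f : V →ₗ[R] V => f b) (map_smul A.mul t a))

instance : SMulCommClass R (VAlg A) (VAlg A) where
  smul_comm t a b := by
    simp only [smul_eq_mul, mul_def]
    exact (map_smul (A.mul a) t b).symm

/-- The bilinear form. -/
def bf (x y : VAlg A) : R := A.form x y

lemma bf_symm (x y : VAlg A) : bf A x y = bf A y x := A.symm x y

lemma bf_add_left (x y z : VAlg A) : bf A (x + y) z = bf A x z + bf A y z := by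
  exact (congrArg (fun f : V →ₗ[R] R => f z) (map_add A.form x y))

lemma bf_neg_left (x z : VAlg A) : bf A (-x) z = -bf A x z := by
  exact (congrArg (fun f : V →ₗ[R] R => f z) (map_neg A.form x))

lemma bf_neg_right (x z : VAlg A) : bf A x (-z) = -bf A x z := by
  rw [bf_symm, bf_neg_left, bf_symm]

lemma bf_inv (x y z : VAlg A) : bf A (x * y) z = bf A x (y * z) := A.inv x y z

lemma self_mul (x : VAlg A) : x * x = 0 := A.mul_self x

lemma anti (a b : VAlg A) : a * b = -(b * a) := by
  have h := self_mul A (a + b)
  rw [add_mul, mul_add, mul_add, self_mul, self_mul, zero_add, add_zero] at h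
  exact eq_neg_of_add_eq_zero_left h

lemma vp (x y z : VAlg A) : (z * x) * y + z * (x * y) + bf A x y • z
    = (2 : R) • bf A z y • x - bf A z x • y := A.vp x y z

lemma bf_self_mul [NoZeroDivisors R] [CharZero R] (x y : VAlg A) : bf A (x * y) x = 0 := by
  have h1 : bf A (x * y) x = -bf A (x * y) x := by
    nth_rewrite 1 [bf_inv, anti A y x]
    rw [bf_neg_right, bf_symm]
  have h2 : bf A (x * y) x + bf A (x * y) x = 0 := by
    nth_rewrite 1 [h1]; exact neg_add_cancel _
  exact add_self_eq_zero.1 h2

lemma S4_eq (a b c u : VAlg A) :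
    S4 a b c u = (3 : R) • (bf A (a * b) u • c - bf A (a * b) c • u) := by
  have h1 := vp A c u (a * b)
  have h2 := vp A u c (a * b)
  rw [anti A u c, mul_neg, bf_symm A u c] at h2
  have h3 : S4 a b c u = ((a * b) * c * u + (a * b) * (c * u) + bf A c u • (a * b))
      - ((a * b) * u * c + -((a * b) * (c * u)) + bf A c u • (a * b)) := by
    rw [S4]; abel
  rw [h3, h1, h2]
  module

lemma P6_eq (a b c u : VAlg A) : P6 a b c u = (6 : R) • (bf A (a * b) c • u) := by
  rw [P6, S4_eq, S4_eq, S4_eq]
  have e1 : bf A (a * u) c = -bf A (a * c) u := by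
    rw [bf_inv, bf_inv, anti A u c, bf_neg_right]
  have e2 : bf A (a * c) b = -bf A (a * b) c := by
    rw [bf_inv, bf_inv, anti A c b, bf_neg_right]
  have e3 : bf A (a * u) b = -bf A (a * b) u := by
    rw [bf_inv, bf_inv, anti A u b, bf_neg_right]
  rw [e1, e2, e3]
  module

lemma J_eq (x y z : VAlg A) :
    J x y z = (3 : R) • ((x * y) * z + bf A y z • x - bf A x z • y) := by
  have h1 := vp A y z x
  have h2 := vp A x y z
  have e1 : (y * z) * x = -(x * (y * z)) := anti A _ _
  have e2 : z * (x * y) = -((x * y) * z) := anti A _ _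
  have h3 : x * (y * z) = (2 : R) • bf A x z • y - bf A x y • z - bf A y z • x - (x * y) * z := by
    rw [← h1]; abel
  have h4 : (z * x) * y = (2 : R) • bf A z y • x - bf A z x • y - bf A x y • z
      + (x * y) * z := by
    rw [← h2, e2]; abel
  rw [J, e1, h3, h4, bf_symm A z y, bf_symm A z x]
  module

theorem isV [NoZeroDivisors R] [CharZero R] : IsV (VAlg A) where
  mul_self := self_mul A
  malcev x y z := by
    rw [J_eq, J_eq, smul_mul_assoc]
    congr 1
    have h1 := vp A z x (x * y)
    rw [bf_self_mul] at h1
    have e1 : (x * y) * (z * x) = -((x * y) * (x * z)) := by rw [anti A z x, mul_neg]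
    have e2 : bf A x (x * z) = 0 := by rw [bf_symm, bf_self_mul]
    have e3 : bf A y (x * z) = -bf A (x * y) z := by
      rw [← bf_inv, anti A y x, bf_neg_left]
    rw [e1] at h1
    have h2 : (x * y) * z * x = (x * y) * (x * z) - bf A z x • (x * y)
        - bf A (x * y) z • x := by
      have : (x * y) * z * x = ((x * y) * z * x + -((x * y) * (x * z)) + bf A z x • (x * y))
          + (x * y) * (x * z) - bf A z x • (x * y) := by abel
      rw [this, h1]
      module
    rw [sub_mul, add_mul, smul_mul_assoc, smul_mul_assoc, self_mul, smul_zero, h2, e2, e3,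
      anti A y x, bf_symm A z x]
    module
  f5 x y z w := by
    rw [P6_eq, smul_mul_assoc, smul_mul_assoc, self_mul, smul_zero, smul_zero]

end VAlg

end vpa

section tab

variable {R : Type*} [CommRing R]

/-- the product of the table as a bilinear map -/
def tabMul (a b c : R) : (Fin 7 → R) →ₗ[R] (Fin 7 → R) →ₗ[R] (Fin 7 → R) :=
  LinearMap.mk₂ R (tab a b c)
    (fun x x' y => by funext i; fin_cases i <;> simp [tab] <;> ring)
    (fun t x y => by funext i; fin_cases i <;> simp [tab] <;> ring)
    (fun x y y' => by funext i; fin_cases i <;> simp [tab] <;> ring)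
    (fun t x y => by funext i; fin_cases i <;> simp [tab] <;> ring)

/-- the form of the table as a bilinear map -/
def tabBil (a b c : R) : (Fin 7 → R) →ₗ[R] (Fin 7 → R) →ₗ[R] R :=
  LinearMap.mk₂ R (tabForm a b c)
    (fun x x' y => by simp [tabForm]; ring)
    (fun t x y => by simp [tabForm]; ring)
    (fun x y y' => by simp [tabForm]; ring)
    (fun t x y => by simp [tabForm]; ring)

/-- the table algebra as a vector product algebra -/
def tabVPA (a b c : R) : VPA R (Fin 7 → R) where
  mul := tabMul a b c
  form := tabBil a b c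
  mul_self := tab_self a b c
  symm x y := by simp [tabBil, tabForm]; ring
  inv := tab_inv a b c
  vp := tab_vp a b c

lemma tab_nondeg {F : Type*} [Field F] {a b c : F} (ha : a ≠ 0) (hb : b ≠ 0) (hc : c ≠ 0)
    {x : Fin 7 → F} (h : ∀ y, tabForm a b c x y = 0) : x = 0 := by
  funext i
  have h0 := h (Pi.single i 1)
  fin_cases i <;> simp [tabForm, Pi.single_apply, ha, hb, hc] at h0 <;> exact h0

end tab

end Pool.Agent.Hhelper78.Malcev
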