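import Mathlib
import Pool.Agent.Hhelper8.Interface
import Pool.Agent.Hhelper78.Malcev.PartB1
import Pool.Agent.Hhelper78.Malcev.Vpa

/-!
# Part B: a multilinear identity of C7 holds in all algebras of `V`
-/

set_option linter.unusedSectionVars false
set_option linter.unusedSimpArgs false

namespace Pool.Agent.Hhelper78.Malcev

open Pool.Agent.Hhelper8

universe u v w

section eval

variable {F : Type u} [Field F]

lemma evP_eq {ι V : Type*} [AddCommGroup V] [Module F V] (m : V → V → V) (f : FreeMagma ι →₀ F)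
    (v : ι → V) : evP F m f v = Finsupp.linearCombination F (evW m v) f := by
  rw [evP, Finsupp.linearCombination_apply]
  rfl

lemma evP_sum {ι V K : Type*} [AddCommGroup V] [Module F V] (m : V → V → V) (S : Finset K)
    (w' : K → FreeMagma ι) (r : K → F) (v : ι → V) :
    evP F m (∑ k ∈ S, Finsupp.single (w' k) (r k)) v = ∑ k ∈ S, r k • evW m v (w' k) := by
  rw [evP_eq, map_sum]
  apply Finset.sum_congr rfl
  intro k _
  rw [Finsupp.linearCombination_single]

variable {A : Type*} {B : Type*} [NonUnitalNonAssocRing A] [NonUnitalNonAssocRing B]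
  [Module F A] [Module F B]

lemma map_evW (φ : A →ₙₐ[F] B) {ι : Type*} (x : ι → A) (w : FreeMagma ι) :
    φ (evW (fun p q => p * q) x w) = evW (fun p q => p * q) (fun i => φ (x i)) w := by
  induction w with
  | ih1 i => rfl
  | ih2 a b iha ihb =>
    show φ (evW (fun p q => p * q) x a * evW (fun p q => p * q) x b) = _
    rw [map_mul, iha, ihb]
    rfl

lemma map_evP (φ : A →ₙₐ[F] B) {ι : Type*} (f : FreeMagma ι →₀ F) (x : ι → A) :
    φ (evP F (fun p q => p * q) f x) = evP F (fun p q => p * q) f (fun i => φ (x i)) := by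
  rw [evP, evP, Finsupp.sum, Finsupp.sum, map_sum]
  apply Finset.sum_congr rfl
  intro w _
  rw [map_smul, map_evW]

end eval

section words

variable {F : Type u} [Field F] {X : Type v}

/-- the value of a word in the free algebra of `V` -/
noncomputable def ev (w : FreeMagma X) : FreeV F X := evW (fun p q => p * q) FreeV.of w

lemma ev_mul (a b : FreeMagma X) : (ev (a * b) : FreeV F X) = ev a * ev b := rfl

lemma ev_of (x : X) : (ev (FreeMagma.of x) : FreeV F X) = FreeV.of x := rfl

lemma mk_single_one (w : FreeMagma X) :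
    QAlg.mk F (VRel F X) (MonoidAlgebra.single w (1 : F)) = ev w := by
  induction w with
  | ih1 i => rfl
  | ih2 a b iha ihb =>
    rw [ev_mul, ← iha, ← ihb, ← map_mul, MonoidAlgebra.single_mul_single, one_mul]

lemma span_ev : Submodule.span F (Set.range (ev : FreeMagma X → FreeV F X)) = ⊤ := by
  rw [eq_top_iff]
  intro g _
  obtain ⟨p, rfl⟩ := QAlg.mk_surjective F (VRel F X) g
  induction p using MonoidAlgebra.induction_linear with
  | zero => rw [map_zero]; exact zero_mem _
  | add a b ha hb => rw [map_add]; exact add_mem (ha trivial) (hb trivial)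
  | single a b =>
    have h : (MonoidAlgebra.single a b : FreeNonUnitalNonAssocAlgebra F X)
        = b • MonoidAlgebra.single a (1 : F) := by
      rw [MonoidAlgebra.smul_single, smul_eq_mul, mul_one]
    rw [h, map_smul, mk_single_one]
    exact Submodule.smul_mem _ _ (Submodule.subset_span ⟨a, rfl⟩)

lemma all_of_words {M : Type*} [AddCommGroup M] [Module F M] (P : Submodule F M)
    (L : FreeV F X →ₗ[F] M) (h : ∀ w : FreeMagma X, L (ev w) ∈ P) (g : FreeV F X) : L g ∈ P := by
  have : (⊤ : Submodule F (FreeV F X)) ≤ P.comap L := by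
    rw [← span_ev, Submodule.span_le]
    rintro _ ⟨w, rfl⟩
    exact h w
  exact this trivial

lemma alpha_words (pr : FreeV F X →ₗ[F] FreeV F X →ₗ[F] FreeV F X →ₗ[F] FreeV F X)
    {α : FreeV F X →ₗ[F] FreeV F X}
    (hα : α ∈ Submodule.span F {β : FreeV F X →ₗ[F] FreeV F X |
      ∃ a b t : FreeV F X, β = pr (a * b) t}) :
    ∃ c : (FreeMagma X × FreeMagma X × FreeMagma X) →₀ F,
      (c.sum fun k r => r • pr (ev k.1 * ev k.2.1) (ev k.2.2)) = α := by
  rw [← Finsupp.mem_span_range_iff_exists_finsupp]
  refine (Submodule.span_le.2 ?_) hα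
  rintro _ ⟨a, b, t, rfl⟩
  set P := Submodule.span F (Set.range fun k : FreeMagma X × FreeMagma X × FreeMagma X =>
    pr (ev k.1 * ev k.2.1) (ev k.2.2)) with hP
  have h1 : ∀ (w w' : FreeMagma X) (t : FreeV F X), pr (ev w * ev w') t ∈ P := by
    intro w w' t
    exact all_of_words P (pr (ev w * ev w')) (fun w'' => Submodule.subset_span ⟨(w, w', w''), rfl⟩) t
  have h2 : ∀ (w : FreeMagma X) (b t : FreeV F X), pr (ev w * b) t ∈ P := by
    intro w b t
    exact all_of_words P ((pr.flip t).comp (LinearMap.mulLeft F (ev w))) (fun w' => h1 w w' t) b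
  exact all_of_words P ((pr.flip t).comp (LinearMap.mulRight F b)) (fun w => h2 w b t) a

/-- the scaling endomorphism -/
noncomputable def scl (l : X → F) : FreeV F X →ₙₐ[F] FreeV F X :=
  FreeV.lift freeV_isV (fun x => l x • FreeV.of x)

lemma scl_ev [Fintype X] [DecidableEq X] (l : X → F) (w : FreeMagma X) :
    scl l (ev w) = (∏ x, l x ^ cnt x w) • (ev w : FreeV F X) := by
  induction w with
  | ih1 i =>
    rw [ev_of, scl, FreeV.lift_of]
    congr 1
    have h : ∀ x, l x ^ cnt x (FreeMagma.of i) = if i = x then l x else 1 := by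
      intro x
      show l x ^ (if i = x then 1 else 0) = _
      split_ifs <;> simp
    simp only [h]
    rw [Finset.prod_ite_eq]
    simp
  | ih2 a b iha ihb =>
    rw [ev_mul, map_mul, iha, ihb, smul_mul_smul_comm, ← Finset.prod_mul_distrib]
    congr 1
    apply Finset.prod_congr rfl
    intro x _
    rw [← pow_add]
    rfl

lemma six_cancel [CharZero F] {M : Type*} [AddCommGroup M] [Module F M] {a b : M}
    (h : (6 : F) • a = (6 : F) • b) : a = b := by
  have h6 : (6 : F) ≠ 0 := by norm_num
  have := congrArg (fun x => (6 : F)⁻¹ • x) h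
  simpa only [smul_smul, inv_mul_cancel₀ h6, one_smul] using this

lemma scl_pr [CharZero F] [Fintype X] [DecidableEq X]
    {pr : FreeV F X →ₗ[F] FreeV F X →ₗ[F] FreeV F X →ₗ[F] FreeV F X}
    (hpr : ∀ a b c x, (6 : F) • pr (a * b) c x = P6 a b c x) (l : X → F)
    (w1 w2 w3 w4 : FreeMagma X) :
    scl l (pr (ev w1 * ev w2) (ev w3) (ev w4))
      = (∏ y, l y ^ (cnt y w1 + cnt y w2 + cnt y w3 + cnt y w4))
        • pr (ev w1 * ev w2) (ev w3) (ev w4) := by
  apply six_cancel (F := F)
  rw [← map_smul, hpr, smul_comm, hpr, map_P6, scl_ev, scl_ev, scl_ev, scl_ev,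
    P6_smul1, P6_smul2, P6_smul3, P6_smul4, smul_smul, smul_smul, smul_smul]
  congr 1
  rw [← Finset.prod_mul_distrib, ← Finset.prod_mul_distrib, ← Finset.prod_mul_distrib]
  apply Finset.prod_congr rfl
  intro y _
  rw [pow_add, pow_add, pow_add]

end words

section separation

variable {F : Type u} [Field F] {X : Type v}

lemma separate [Infinite F] [Fintype X] {M : Type*} [AddCommGroup M] [Module F M] {I : Type*}
    (s : Finset I) (g : I → M) (d : I → X → ℕ)
    (h : ∀ l : X → F, ∑ i ∈ s, (∏ x, l x ^ d i x) • g i = 0) (d₀ : X → ℕ) [DecidablePred fun i => d i = d₀] :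
    ∑ i ∈ s, (if d i = d₀ then g i else 0) = 0 := by
  classical
  rw [← Module.forall_dual_apply_eq_zero_iff F]
  intro ℓ
  let e : (X → ℕ) ≃ (X →₀ ℕ) := Finsupp.equivFunOnFinite.symm
  let P : MvPolynomial X F := ∑ i ∈ s, MvPolynomial.monomial (e (d i)) (ℓ (g i))
  have hP : P = 0 := by
    apply MvPolynomial.funext
    intro l
    rw [map_zero, map_sum]
    have := congrArg ℓ (h l)
    rw [map_sum, map_zero] at this
    rw [← this]
    apply Finset.sum_congr rfl
    intro i _
    rw [MvPolynomial.eval_monomial, map_smul, smul_eq_mul, mul_comm]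
    congr 1
    rw [Finsupp.prod_fintype _ _ (fun _ => pow_zero _)]
    rfl
  have h2 := congrArg (MvPolynomial.coeff (e d₀)) hP
  rw [MvPolynomial.coeff_sum, MvPolynomial.coeff_zero] at h2
  simp only [MvPolynomial.coeff_monomial] at h2
  rw [map_sum, ← h2]
  apply Finset.sum_congr rfl
  intro i _
  by_cases hd : d i = d₀
  · rw [if_pos hd, if_pos (by rw [hd])]
  · rw [if_neg hd, if_neg (fun he => hd (e.injective he)), map_zero]

end separation

section root

variable {F : Type u} [Field F] [CharZero F] {G : Type v} [NonUnitalNonAssocRing G] [Module F G]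
  [IsScalarTower F G G] [SMulCommClass F G G] (hG : VIds G)
  {pr : G →ₗ[F] G →ₗ[F] G →ₗ[F] G}
  (hpr : ∀ a b c x, (6 : F) • pr (a * b) c x = P6 a b c x)
include hG hpr

omit [IsScalarTower F G G] [SMulCommClass F G G] [CharZero F] [Module F G] hpr in
lemma P6_swap (a b c u : G) : P6 a c b u = -P6 a b c u := by
  have h1 : c * b = -(b * c) := Ext.anti hG c b
  have h2 : P6 a c b u + P6 a b c u = 0 := by
    simp only [P6, S4, h1, mul_neg]
    abel
  exact eq_neg_of_add_eq_zero_left h2

lemma pr_swap (a b c : G) : pr (a * b) c = -pr (a * c) b := by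
  ext u
  apply six_cancel (F := F)
  rw [LinearMap.neg_apply, smul_neg, hpr, hpr, P6_swap hG]

lemma pr_anti (a b c : G) : pr (a * b) c = -pr (b * a) c := by
  rw [Ext.anti hG a b, map_neg]
  rfl

lemma pr_mul (a b c d : G) : pr (a * b) (c * d) = pr ((a * b) * c) d := by
  ext u
  apply six_cancel (F := F)
  rw [hpr, hpr, hG.idc]

variable {X : Type w} [DecidableEq X] (gen : X → G) (j : X)

lemma rootA : ∀ (t a b : FreeMagma X), cnt j a = 0 → cnt j b = 0 → cnt j t = 1 →
    ∃ (a' b' : FreeMagma X) (ε : F), cnt j a' = 0 ∧ cnt j b' = 0 ∧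
      (∀ y, y ≠ j → cnt y a' + cnt y b' = cnt y a + cnt y b + cnt y t) ∧
      pr (evW (fun p q => p * q) gen a * evW (fun p q => p * q) gen b)
        (evW (fun p q => p * q) gen t)
      = ε • pr (evW (fun p q => p * q) gen a' * evW (fun p q => p * q) gen b') (gen j) := by
  intro t
  induction t with
  | ih1 k =>
    intro a b ha hb hk
    have hkj : k = j := by
      by_contra hne
      have : cnt j (FreeMagma.of k) = if k = j then 1 else 0 := rfl
      rw [this, if_neg hne] at hk
      exact absurd hk (by norm_num)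
    subst hkj
    refine ⟨a, b, 1, ha, hb, ?_, ?_⟩
    · intro y hy
      have : cnt y (FreeMagma.of k) = if k = y then 1 else 0 := rfl
      rw [this, if_neg (Ne.symm hy), add_zero]
    · rw [one_smul]; rfl
  | ih2 t1 t2 ih1 ih2 =>
    intro a b ha hb ht
    have hc : ∀ y, cnt y (t1 * t2) = cnt y t1 + cnt y t2 := fun _ => rfl
    have hab : ∀ y, cnt y (a * b) = cnt y a + cnt y b := fun _ => rfl
    rw [hc] at ht
    have e1 : pr (evW (fun p q => p * q) gen a * evW (fun p q => p * q) gen b)
        (evW (fun p q => p * q) gen (t1 * t2))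
        = pr (evW (fun p q => p * q) gen (a * b) * evW (fun p q => p * q) gen t1)
          (evW (fun p q => p * q) gen t2) := pr_mul hG hpr _ _ _ _
    rcases Nat.eq_zero_or_pos (cnt j t1) with h0 | h0
    · obtain ⟨a', b', ε, h3, h4, h5, h6⟩ := ih2 (a * b) t1 (by rw [hab]; omega) h0 (by omega)
      refine ⟨a', b', ε, h3, h4, ?_, ?_⟩
      · intro y hy
        rw [h5 y hy, hab, hc]; omega
      · rw [e1, h6]
    · obtain ⟨a', b', ε, h3, h4, h5, h6⟩ := ih1 (a * b) t2 (by rw [hab]; omega) (by omega)
        (by omega)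
      refine ⟨a', b', -ε, h3, h4, ?_, ?_⟩
      · intro y hy
        rw [h5 y hy, hab, hc]; omega
      · rw [e1, pr_swap hG hpr, h6, neg_smul]

lemma root (t a b : FreeMagma X) (h : cnt j a + cnt j b + cnt j t = 1) :
    ∃ (a' b' : FreeMagma X) (ε : F), cnt j a' = 0 ∧ cnt j b' = 0 ∧
      (∀ y, y ≠ j → cnt y a' + cnt y b' = cnt y a + cnt y b + cnt y t) ∧
      pr (evW (fun p q => p * q) gen a * evW (fun p q => p * q) gen b)
        (evW (fun p q => p * q) gen t)
      = ε • pr (evW (fun p q => p * q) gen a' * evW (fun p q => p * q) gen b') (gen j) := by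
  rcases Nat.eq_zero_or_pos (cnt j t) with h0 | h0
  · rcases Nat.eq_zero_or_pos (cnt j b) with h1 | h1
    · -- `j` occurs in `a`
      obtain ⟨a', b', ε, h3, h4, h5, h6⟩ := rootA hG hpr gen j a b t h1 h0 (by omega)
      refine ⟨a', b', ε, h3, h4, ?_, ?_⟩
      · intro y hy
        rw [h5 y hy]; omega
      · rw [pr_anti hG hpr, pr_swap hG hpr, neg_neg, h6]
    · obtain ⟨a', b', ε, h3, h4, h5, h6⟩ := rootA hG hpr gen j b a t (by omega) h0 (by omega)
      refine ⟨a', b', -ε, h3, h4, ?_, ?_⟩
      · intro y hy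
        rw [h5 y hy]; omega
      · rw [pr_swap hG hpr, h6, neg_smul]
  · exact rootA hG hpr gen j t a b (by omega) (by omega) (by omega)

end root

section pullback

variable {X : Type v} {Y : Type w} [DecidableEq X] [DecidableEq Y]

lemma cnt_map {g : Y → X} (hg : Function.Injective g) (y : Y) (w : FreeMagma Y) :
    cnt (g y) (FreeMagma.map g w) = cnt y w := by
  induction w with
  | ih1 i =>
    show (if g i = g y then 1 else 0) = if i = y then 1 else 0
    simp only [hg.eq_iff]
  | ih2 a b iha ihb =>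
    rw [map_mul]
    show cnt (g y) (FreeMagma.map g a) + cnt (g y) (FreeMagma.map g b) = _
    rw [iha, ihb]
    rfl

lemma exists_map {g : Y → X} (w : FreeMagma X) (h : ∀ x, cnt x w ≠ 0 → ∃ y, g y = x) :
    ∃ w' : FreeMagma Y, FreeMagma.map g w' = w := by
  induction w with
  | ih1 i =>
    obtain ⟨y, rfl⟩ := h i (by show (if i = i then 1 else 0) ≠ 0; simp)
    exact ⟨FreeMagma.of y, rfl⟩
  | ih2 a b iha ihb =>
    have hc : ∀ x, cnt x (a * b) = cnt x a + cnt x b := fun _ => rfl
    obtain ⟨a', rfl⟩ := iha (fun x hx => h x (by rw [hc]; omega))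
    obtain ⟨b', rfl⟩ := ihb (fun x hx => h x (by rw [hc]; omega))
    exact ⟨a' * b', map_mul _ _ _⟩

lemma evW_map {V : Type*} (m : V → V → V) (g : Y → X) (v : X → V) (w : FreeMagma Y) :
    evW m v (FreeMagma.map g w) = evW m (fun y => v (g y)) w := by
  induction w with
  | ih1 i => rfl
  | ih2 a b iha ihb =>
    rw [map_mul]
    show m (evW m v (FreeMagma.map g a)) (evW m v (FreeMagma.map g b)) = _
    rw [iha, ihb]
    rfl

end pullback

/-- It is enough to check an identity in the free algebra. -/
lemma holds_of_free {F : Type u} [Field F] {ι : Type w} {f : FreeMagma ι →₀ F}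
    (h : evP F (fun p q => p * q) f (FreeV.of : ι → FreeV F ι) = 0)
    {B : Type v} [NonUnitalNonAssocRing B] [Module F B] [IsScalarTower F B B]
    [SMulCommClass F B B] (hB : IsV B) (x : ι → B) : evP F (fun p q => p * q) f x = 0 := by
  have h1 := congrArg (FreeV.lift (F := F) hB x) h
  rw [map_evP, map_zero] at h1
  simpa only [FreeV.lift_of] using h1

lemma torsionFree (F : Type u) [Field F] [CharZero F] (M : Type v) [AddCommGroup M] [Module F M] :
    IsAddTorsionFree M where
  nsmul_right_injective n hn a b hab := by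
    have hab' : n • a = n • b := hab
    rw [← Nat.cast_smul_eq_nsmul F, ← Nat.cast_smul_eq_nsmul F] at hab'
    have hn' : (n : F) ≠ 0 := by exact_mod_cast hn
    have := congrArg (fun x => (n : F)⁻¹ • x) hab'
    simpa only [smul_smul, inv_mul_cancel₀ hn', one_smul] using this

section main

/-- the base case: at most one letter -/
lemma base_case {F : Type u} [Field F] {ι : Type} [Fintype ι] [DecidableEq ι]
    (hc : Fintype.card ι < 2) {f : FreeMagma ι →₀ F} (hf : ∀ w ∈ f.support, MLin w)
    {a0 b0 c0 : F} (h : ∀ v : ι → (Fin 7 → F), evP F (tab a0 b0 c0) f v = 0) : f = 0 := by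
  have hsub : Subsingleton ι := Fintype.card_le_one_iff_subsingleton.1 (by omega)
  by_contra hne
  obtain ⟨w0, hw0⟩ := Finsupp.support_nonempty_iff.2 hne
  -- every multilinear word is a letter
  have hlen : ∀ (w : FreeMagma ι) (i : ι), 1 ≤ cnt i w := by
    intro w i
    induction w with
    | ih1 k =>
      have : k = i := Subsingleton.elim _ _
      show 1 ≤ if k = i then 1 else 0
      rw [if_pos this]
    | ih2 a b iha ihb =>
      show 1 ≤ cnt i a + cnt i b
      omega
  have hword : ∀ w ∈ f.support, ∃ i, w = FreeMagma.of i := by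
    intro w hw
    have h1 := hf w hw
    cases w with
    | of i => exact ⟨i, rfl⟩
    | mul a b =>
      exfalso
      -- the word has a letter
      have hi : ∀ w : FreeMagma ι, Nonempty ι := by
        intro w
        induction w with
        | ih1 k => exact ⟨k⟩
        | ih2 a b iha ihb => exact iha
      obtain ⟨i⟩ := hi a
      have h2 : cnt i a + cnt i b = 1 := h1 i
      have h3 := hlen a i
      have h4 := hlen b i
      omega
  obtain ⟨i, rfl⟩ := hword w0 hw0
  have hf1 : f = Finsupp.single (FreeMagma.of i) (f (FreeMagma.of i)) := by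
    ext w
    by_cases hw : w ∈ f.support
    · obtain ⟨k, rfl⟩ := hword w hw
      have : k = i := Subsingleton.elim _ _
      rw [this, Finsupp.single_eq_same]
    · rw [Finsupp.notMem_support_iff.1 hw, Finsupp.single_apply]
      split_ifs with h1
      · rw [h1]
        exact (Finsupp.notMem_support_iff.1 hw).symm
      · rfl
  have h1 := h (fun _ => Pi.single 0 1)
  rw [evP_eq, hf1, Finsupp.linearCombination_single] at h1
  have h2 := congrFun h1 0
  have h3 : f (FreeMagma.of i) = 0 := by
    have h4 : f (FreeMagma.of i) • (Pi.single 0 1 : Fin 7 → F) 0 = 0 := h2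
    simpa using h4
  exact (Finsupp.mem_support_iff.1 hw0) h3

/-- the generators of the big free algebra -/
noncomputable abbrev gX (F : Type u) [Field F] (ι : Type) (m : ι) : FreeV F (ι ⊕ Bool) :=
  FreeV.of (Sum.inl m)

variable (hV : PartV.{u}) (h1 : PartB1.{u, 0}) (h4 : PartB4.{u})
include hV h1 h4

theorem main_ind (F : Type u) [Field F] [CharZero F] (a0 b0 c0 : F) (ha : a0 ≠ 0) (hb : b0 ≠ 0)
    (hc : c0 ≠ 0) : ∀ (n : ℕ) (ι : Type) [Fintype ι] [DecidableEq ι], Fintype.card ι = n →
    ∀ (f : FreeMagma ι →₀ F), (∀ w ∈ f.support, MLin w) →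
    (∀ v : ι → (Fin 7 → F), evP F (tab a0 b0 c0) f v = 0) →
    evP F (fun p q => p * q) f (FreeV.of : ι → FreeV F ι) = 0 := by
  intro n
  induction n using Nat.strong_induction_on with
  | _ n IH =>
  intro ι _ _ hcard f hf hid
  rcases Nat.lt_or_ge (Fintype.card ι) 2 with hlt | hge
  · have h0 : f = 0 := base_case hlt hf hid
    rw [h0, evP_eq, map_zero]
  obtain ⟨i, j, hij⟩ := Fintype.one_lt_card_iff.1 (by omega : 1 < Fintype.card ι)
  -- the big free algebra
  have htf : IsAddTorsionFree (FreeV F (ι ⊕ Bool)) := torsionFree F _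
  have hG : VIds (FreeV F (ι ⊕ Bool)) := hV _ freeV_isV
  obtain ⟨pr, hpr⟩ := h1 F (ι ⊕ Bool) hG
  obtain ⟨α, hα, hα1, hα2⟩ := h4 F (FreeV F (ι ⊕ Bool)) hG pr hpr ι f hf hge a0 b0 c0 ha hb hc hid
    (gX F ι) i
  obtain ⟨c, hcα⟩ := alpha_words pr hα
  -- the terms
  let T : FreeMagma (ι ⊕ Bool) × FreeMagma (ι ⊕ Bool) × FreeMagma (ι ⊕ Bool) →
      (FreeV F (ι ⊕ Bool) →ₗ[F] FreeV F (ι ⊕ Bool)) :=
    fun k => pr (ev k.1 * ev k.2.1) (ev k.2.2)
  let dg : FreeMagma (ι ⊕ Bool) × FreeMagma (ι ⊕ Bool) × FreeMagma (ι ⊕ Bool) → ι ⊕ Bool → ℕ :=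
    fun k y => cnt y k.1 + cnt y k.2.1 + cnt y k.2.2
  let d₀ : ι ⊕ Bool → ℕ := Sum.elim (fun k => if k = i then 0 else 1) (fun _ => 0)
  have hαx : ∀ u, α u = ∑ k ∈ c.support, c k • T k u := by
    intro u
    rw [← hcα, Finsupp.sum, LinearMap.sum_apply]
    rfl
  -- degree comparison for products `ev w`
  have hdeg : ∀ (w4 : FreeMagma (ι ⊕ Bool)) (l : ι ⊕ Bool → F) k,
      scl l (T k (ev w4)) = (∏ y, l y ^ (dg k y + cnt y w4)) • T k (ev w4) := by
    intro w4 l k
    exact scl_pr hpr l _ _ _ _
  have fact1 : ∑ k ∈ c.support, (if dg k = d₀ then c k • T k (gX F ι i) else 0)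
      = evP F (fun p q => p * q) f (gX F ι) := by
    let g : Option (FreeMagma (ι ⊕ Bool) × FreeMagma (ι ⊕ Bool) × FreeMagma (ι ⊕ Bool)) →
        FreeV F (ι ⊕ Bool) := fun o => o.elim (-(evP F (fun p q => p * q) f (gX F ι)))
          (fun k => c k • T k (gX F ι i))
    let D : ι ⊕ Bool → ℕ := Sum.elim (fun _ => 1) (fun _ => 0)
    let d : Option (FreeMagma (ι ⊕ Bool) × FreeMagma (ι ⊕ Bool) × FreeMagma (ι ⊕ Bool)) →
        ι ⊕ Bool → ℕ := fun o => o.elim D
          (fun k y => dg k y + cnt y (FreeMagma.of (Sum.inl i : ι ⊕ Bool)))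
    have hsep := separate (F := F) (Finset.insertNone c.support) g d (by
      intro l
      rw [Finset.sum_insertNone]
      have e1 : (∏ x, l x ^ d none x) • g none
          = -(scl l (evP F (fun p q => p * q) f (gX F ι))) := by
        show (∏ x, l x ^ D x) • (-(evP F (fun p q => p * q) f (gX F ι))) = _
        rw [smul_neg]
        congr 1
        rw [map_evP, evP, evP, Finsupp.sum, Finsupp.sum, Finset.smul_sum]
        apply Finset.sum_congr rfl
        intro w hw
        rw [smul_comm]
        congr 1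
        have h5 : evW (fun p q => p * q) (gX F ι) w
            = (ev (FreeMagma.map Sum.inl w) : FreeV F (ι ⊕ Bool)) := by
          rw [ev, evW_map]
        have h6 : evW (fun p q => p * q) (fun i => scl l (gX F ι i)) w
            = scl l (evW (fun p q => p * q) (gX F ι) w) := (map_evW _ _ _).symm
        rw [h6, h5, scl_ev]
        congr 1
        apply Finset.prod_congr rfl
        intro y _
        congr 1
        cases y with
        | inl m =>
          rw [cnt_map Sum.inl_injective]
          exact (hf w hw m).symm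
        | inr b =>
          show 0 = _
          symm
          have : ∀ w : FreeMagma ι, cnt (Sum.inr b : ι ⊕ Bool) (FreeMagma.map Sum.inl w) = 0 := by
            intro w
            induction w with
            | ih1 k => rfl
            | ih2 a b iha ihb =>
              rw [map_mul]
              show cnt _ (FreeMagma.map Sum.inl a) + cnt _ (FreeMagma.map Sum.inl b) = 0
              rw [iha, ihb]
          exact this w
      have e2 : ∑ k ∈ c.support, (∏ x, l x ^ d (some k) x) • g (some k)
          = scl l (α (gX F ι i)) := by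
        rw [hαx, map_sum]
        apply Finset.sum_congr rfl
        intro k _
        rw [map_smul]
        show (∏ x, l x ^ (dg k x + cnt x (FreeMagma.of (Sum.inl i : ι ⊕ Bool))))
          • (c k • T k (gX F ι i)) = _
        rw [smul_comm]
        congr 1
        exact (hdeg (FreeMagma.of (Sum.inl i)) l k).symm
      rw [e1, e2, hα1, neg_add_cancel]) D
    rw [Finset.sum_insertNone, if_pos (show d none = D from rfl)] at hsep
    have e3 : ∑ k ∈ c.support, (if d (some k) = D then g (some k) else 0)
        = ∑ k ∈ c.support, (if dg k = d₀ then c k • T k (gX F ι i) else 0) := by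
      apply Finset.sum_congr rfl
      intro k _
      have hiff : d (some k) = D ↔ dg k = d₀ := by
        have hci : ∀ m, cnt (Sum.inl m : ι ⊕ Bool) (FreeMagma.of (Sum.inl i : ι ⊕ Bool))
            = if m = i then 1 else 0 := by
          intro m
          show (if (Sum.inl i : ι ⊕ Bool) = Sum.inl m then 1 else 0) = _
          simp only [Sum.inl.injEq, eq_comm]
        have hcb : ∀ b, cnt (Sum.inr b : ι ⊕ Bool) (FreeMagma.of (Sum.inl i : ι ⊕ Bool))
            = 0 := fun b => rfl
        constructor
        · intro he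
          funext y
          have := congrFun he y
          cases y with
          | inl m =>
            have h5 : dg k (Sum.inl m) + cnt (Sum.inl m : ι ⊕ Bool)
              (FreeMagma.of (Sum.inl i : ι ⊕ Bool)) = 1 := this
            rw [hci] at h5
            show dg k (Sum.inl m) = if m = i then 0 else 1
            split_ifs at h5 ⊢ <;> omega
          | inr b => exact this
        · intro he
          funext y
          have := congrFun he y
          cases y with
          | inl m =>
            have h5 : dg k (Sum.inl m) = if m = i then 0 else 1 := this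
            show dg k (Sum.inl m) + cnt (Sum.inl m : ι ⊕ Bool)
              (FreeMagma.of (Sum.inl i : ι ⊕ Bool)) = 1
            rw [hci, h5]
            split_ifs <;> rfl
          | inr b => exact this
      by_cases hd : dg k = d₀
      · rw [if_pos hd, if_pos (hiff.2 hd)]
        rfl
      · rw [if_neg hd, if_neg (fun he => hd (hiff.1 he))]
    rw [e3] at hsep
    have h5 : -(evP F (fun p q => p * q) f (gX F ι))
        + ∑ k ∈ c.support, (if dg k = d₀ then c k • T k (gX F ι i) else 0) = 0 := hsep
    rw [neg_add_eq_zero] at h5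
    exact h5.symm
  -- the word `pq`
  let wpq : FreeMagma (ι ⊕ Bool) := FreeMagma.of (Sum.inr true) * FreeMagma.of (Sum.inr false)
  have fact2 : ∑ k ∈ c.support, (if dg k = d₀ then c k • T k (ev wpq) else 0) = 0 := by
    let D : ι ⊕ Bool → ℕ := fun y => d₀ y + cnt y wpq
    have hsep := separate (F := F) c.support (fun k => c k • T k (ev wpq))
      (fun k y => dg k y + cnt y wpq) (by
      intro l
      have e2 : ∑ k ∈ c.support, (∏ x, l x ^ (dg k x + cnt x wpq)) • (c k • T k (ev wpq))
          = scl l (α (ev wpq)) := by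
        rw [hαx, map_sum]
        apply Finset.sum_congr rfl
        intro k _
        rw [map_smul, smul_comm]
        congr 1
        exact (hdeg wpq l k).symm
      rw [e2]
      have : α (ev wpq) = 0 := hα2 _ _
      rw [this, map_zero]) D
    refine Eq.trans ?_ hsep
    apply Finset.sum_congr rfl
    intro k _
    have hiff : (fun y => dg k y + cnt y wpq) = D ↔ dg k = d₀ := by
      constructor
      · intro he
        funext y
        have h5 : dg k y + cnt y wpq = d₀ y + cnt y wpq := congrFun he y
        omega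
      · intro he
        rw [he]
    by_cases hd : dg k = d₀
    · rw [if_pos hd, if_pos (hiff.2 hd)]
    · rw [if_neg hd, if_neg (fun he => hd (hiff.1 he))]
  -- root moving
  have hroot : ∀ k, dg k = d₀ → ∃ (a' b' : FreeMagma {m : ι // m ≠ i ∧ m ≠ j}) (ε : F),
      MLin (a' * b') ∧ T k = ε • pr (evW (fun p q => p * q) (fun m => gX F ι m.1) a'
        * evW (fun p q => p * q) (fun m => gX F ι m.1) b') (gX F ι j) := by
    intro k hk
    have hj : cnt (Sum.inl j : ι ⊕ Bool) k.1 + cnt (Sum.inl j : ι ⊕ Bool) k.2.1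
        + cnt (Sum.inl j : ι ⊕ Bool) k.2.2 = 1 := by
      have h5 := congrFun hk (Sum.inl j)
      have h6 : d₀ (Sum.inl j) = if j = i then 0 else 1 := rfl
      rw [h6, if_neg (Ne.symm hij)] at h5
      exact h5
    obtain ⟨a', b', ε, h5, h6, h7, h8⟩ := root hG hpr FreeV.of (Sum.inl j) k.2.2 k.1 k.2.1 hj
    have h9 : ∀ y, cnt y a' + cnt y b' = if y = Sum.inl j then 0 else d₀ y := by
      intro y
      split_ifs with hy
      · rw [hy, h5, h6]
      · rw [h7 y hy]
        exact congrFun hk y
    have hlet : ∀ y, cnt y a' + cnt y b' ≠ 0 →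
        ∃ m : {m : ι // m ≠ i ∧ m ≠ j}, (Sum.inl m.1 : ι ⊕ Bool) = y := by
      intro y hy
      rw [h9] at hy
      cases y with
      | inl m =>
        by_cases hm : m = j
        · rw [hm, if_pos rfl] at hy; exact absurd rfl hy
        · by_cases hm2 : m = i
          · exfalso
            apply hy
            rw [if_neg (by simpa using hm)]
            show (if m = i then 0 else 1) = 0
            rw [if_pos hm2]
          · exact ⟨⟨m, hm2, hm⟩, rfl⟩
      | inr b =>
        exfalso
        apply hy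
        rw [if_neg (by simp)]
        rfl
    obtain ⟨a'', ha''⟩ := exists_map (g := fun m : {m : ι // m ≠ i ∧ m ≠ j} =>
      (Sum.inl m.1 : ι ⊕ Bool)) a' (fun y hy => hlet y (by omega))
    obtain ⟨b'', hb''⟩ := exists_map (g := fun m : {m : ι // m ≠ i ∧ m ≠ j} =>
      (Sum.inl m.1 : ι ⊕ Bool)) b' (fun y hy => hlet y (by omega))
    have hinj : Function.Injective (fun m : {m : ι // m ≠ i ∧ m ≠ j} =>
      (Sum.inl m.1 : ι ⊕ Bool)) := fun m m' h => Subtype.ext (Sum.inl_injective h)
    refine ⟨a'', b'', ε, ?_, ?_⟩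
    · intro m
      have h10 := h9 (Sum.inl m.1)
      rw [if_neg (by intro h; exact m.2.2 (Sum.inl_injective h)), ← ha'', ← hb''] at h10
      have h11 : cnt (Sum.inl m.1 : ι ⊕ Bool) (FreeMagma.map (fun m : {m : ι // m ≠ i ∧ m ≠ j} =>
        (Sum.inl m.1 : ι ⊕ Bool)) a'') = cnt m a'' := cnt_map hinj m a''
      have h12 : cnt (Sum.inl m.1 : ι ⊕ Bool) (FreeMagma.map (fun m : {m : ι // m ≠ i ∧ m ≠ j} =>
        (Sum.inl m.1 : ι ⊕ Bool)) b'') = cnt m b'' := cnt_map hinj m b''
      show cnt m a'' + cnt m b'' = 1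
      have h13 : d₀ (Sum.inl m.1) = 1 := by
        show (if m.1 = i then 0 else 1) = 1
        rw [if_neg m.2.1]
      rw [h13, h11, h12] at h10
      exact h10
    · show pr (ev k.1 * ev k.2.1) (ev k.2.2) = _
      rw [← ha'', ← hb'', evW_map, evW_map] at h8
      exact h8
  classical
  let S := c.support.filter (fun k => dg k = d₀)
  have hS : ∀ k : {k // k ∈ S}, dg k.1 = d₀ := fun k => (Finset.mem_filter.1 k.2).2
  choose A B ε hML hT using fun k : {k // k ∈ S} => hroot k.1 (hS k)
  have fact1' : ∑ k ∈ S.attach, c k.1 • T k.1 (gX F ι i)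
      = evP F (fun p q => p * q) f (gX F ι) := by
    rw [← fact1, ← Finset.sum_filter]
    exact Finset.sum_attach S (fun k => c k • T k (gX F ι i))
  have fact2' : ∑ k ∈ S.attach, c k.1 • T k.1 (ev wpq) = 0 := by
    rw [← fact2, ← Finset.sum_filter]
    exact Finset.sum_attach S (fun k => c k • T k (ev wpq))
  let v : FreeMagma {m : ι // m ≠ i ∧ m ≠ j} →₀ F :=
    ∑ k ∈ S.attach, Finsupp.single (A k * B k) (c k.1 * ε k)
  have hvML : ∀ w ∈ v.support, MLin w := by
    intro w hw
    by_contra hnot
    apply Finsupp.mem_support_iff.1 hw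
    show (∑ k ∈ S.attach, Finsupp.single (A k * B k) (c k.1 * ε k)) w = 0
    rw [Finsupp.finsetSum_apply]
    apply Finset.sum_eq_zero
    intro k hk
    rw [Finsupp.single_apply, if_neg]
    intro he
    exact hnot (he ▸ hML k)
  -- `v` is an identity of the table algebra
  have hvid : ∀ u : {m : ι // m ≠ i ∧ m ≠ j} → (Fin 7 → F), evP F (tab a0 b0 c0) v u = 0 := by
    intro u
    apply tab_nondeg ha hb hc
    intro y
    have hTV : IsV (VAlg (tabVPA a0 b0 c0)) := VAlg.isV _
    let φ : FreeV F (ι ⊕ Bool) →ₙₐ[F] VAlg (tabVPA a0 b0 c0) :=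
      FreeV.lift hTV (Sum.elim
        (fun m => if h : m ≠ i ∧ m ≠ j then u ⟨m, h⟩ else if m = j then y else 0)
        (fun b => if b then (Pi.single 0 1 : Fin 7 → F) else Pi.single 1 1))
    have hφm : ∀ m : {m : ι // m ≠ i ∧ m ≠ j}, φ (gX F ι m.1) = u m := by
      intro m
      show FreeV.lift _ _ (FreeV.of _) = _
      rw [FreeV.lift_of]
      show (if h : m.1 ≠ i ∧ m.1 ≠ j then u ⟨m.1, h⟩ else if m.1 = j then y else 0) = _
      rw [dif_pos m.2]
    have hφj : φ (gX F ι j) = y := by
      show FreeV.lift _ _ (FreeV.of _) = _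
      rw [FreeV.lift_of]
      show (if h : j ≠ i ∧ j ≠ j then u ⟨j, h⟩ else if j = j then y else 0) = _
      rw [dif_neg (by simp), if_pos rfl]
    have hφpq : φ (ev wpq) = tab a0 b0 c0 (Pi.single 0 1) (Pi.single 1 1) := by
      show φ (FreeV.of (Sum.inr true) * FreeV.of (Sum.inr false)) = _
      rw [map_mul]
      show FreeV.lift _ _ (FreeV.of _) * FreeV.lift _ _ (FreeV.of _) = _
      rw [FreeV.lift_of, FreeV.lift_of]
      rfl
    have hφw : ∀ w : FreeMagma {m : ι // m ≠ i ∧ m ≠ j},
        φ (evW (fun p q => p * q) (fun m => gX F ι m.1) w) = evW (tab a0 b0 c0) u w := by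
      intro w
      rw [map_evW]
      have : (fun m : {m : ι // m ≠ i ∧ m ≠ j} => φ (gX F ι m.1)) = u := funext hφm
      rw [this]
      rfl
    have h5 := congrArg (fun z => (6 : F) • φ z) fact2'
    simp only [map_zero, smul_zero] at h5
    rw [map_sum, Finset.smul_sum] at h5
    have h6 : ∀ k ∈ S.attach,
        (6 : F) • φ (c k.1 • T k.1 (ev wpq))
        = (6 : F) • ((c k.1 * ε k) • ((VAlg.bf (tabVPA a0 b0 c0)
          (evW (tab a0 b0 c0) u (A k * B k)) y) • (φ (ev wpq)))) := by
      intro k _
      have h7 : (6 : F) • φ (T k.1 (ev wpq)) = ε k • ((6 : F) •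
          (VAlg.bf (tabVPA a0 b0 c0) (evW (tab a0 b0 c0) u (A k * B k)) y • φ (ev wpq))) := by
        rw [hT k, LinearMap.smul_apply, map_smul, smul_comm, ← map_smul φ (6 : F), hpr, map_P6,
          VAlg.P6_eq, hφw, hφw, hφj]
        rfl
      rw [map_smul, smul_comm, h7, smul_smul, smul_comm (c k.1 * ε k) (6 : F)]
    rw [Finset.sum_congr rfl h6] at h5
    have h8 : (6 : F) • ((VAlg.bf (tabVPA a0 b0 c0)
        (∑ k ∈ S.attach, (c k.1 * ε k) •
          (evW (tab a0 b0 c0) u (A k * B k) : VAlg (tabVPA a0 b0 c0))) y) •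
          φ (ev wpq)) = 0 := by
      rw [← h5]
      have hlin : VAlg.bf (tabVPA a0 b0 c0)
          (∑ k ∈ S.attach, (c k.1 * ε k) •
            (evW (tab a0 b0 c0) u (A k * B k) : VAlg (tabVPA a0 b0 c0))) y
          = ∑ k ∈ S.attach, (c k.1 * ε k) * VAlg.bf (tabVPA a0 b0 c0)
            (evW (tab a0 b0 c0) u (A k * B k)) y := by
        have := congrArg (fun g : (Fin 7 → F) →ₗ[F] F => g y)
          (map_sum (tabVPA a0 b0 c0).form
            (fun k => (c k.1 * ε k) • (evW (tab a0 b0 c0) u (A k * B k))) S.attach)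
        refine this.trans ?_
        rw [LinearMap.sum_apply]
        apply Finset.sum_congr rfl
        intro k _
        rw [map_smul]
        rfl
      rw [hlin, Finset.sum_smul, Finset.smul_sum]
      apply Finset.sum_congr rfl
      intro k _
      rw [mul_smul]
    have h9 := six_cancel (F := F) (h8.trans (smul_zero (6 : F)).symm)
    rw [hφpq] at h9
    have h10 := congrFun h9 2
    have h11 : tab a0 b0 c0 (Pi.single 0 1) (Pi.single 1 1) 2 = 1 := by
      simp [tab, Pi.single_apply]
    have h12 : (VAlg.bf (tabVPA a0 b0 c0)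
        (∑ k ∈ S.attach, (c k.1 * ε k) •
          (evW (tab a0 b0 c0) u (A k * B k) : VAlg (tabVPA a0 b0 c0))) y)
        * tab a0 b0 c0 (Pi.single 0 1) (Pi.single 1 1) 2 = 0 := h10
    rw [h11, mul_one] at h12
    have h13 : evP F (tab a0 b0 c0) v u
        = ∑ k ∈ S.attach, (c k.1 * ε k) • (evW (tab a0 b0 c0) u (A k * B k)) :=
      evP_sum _ _ _ _ _
    rw [h13]
    exact h12
  -- induction
  have hcard' : Fintype.card {m : ι // m ≠ i ∧ m ≠ j} < n := by
    rw [← hcard]
    apply Fintype.card_subtype_lt (x := i)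
    simp
  have hv0 := IH _ hcard' {m : ι // m ≠ i ∧ m ≠ j} rfl v hvML hvid
  have hv1 : evP F (fun p q => p * q) v (fun m => gX F ι m.1) = 0 :=
    holds_of_free hv0 freeV_isV _
  have hfx : evP F (fun p q => p * q) f (gX F ι) = 0 := by
    rw [← fact1']
    have h5 : ∀ k ∈ S.attach, c k.1 • T k.1 (gX F ι i)
        = pr ((c k.1 * ε k) • (evW (fun p q => p * q) (fun m => gX F ι m.1) (A k * B k)))
          (gX F ι j) (gX F ι i) := by
      intro k hk
      rw [hT k, map_smul, LinearMap.smul_apply, LinearMap.smul_apply,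
        LinearMap.smul_apply, smul_smul]
      rfl
    rw [Finset.sum_congr rfl h5, ← LinearMap.sum_apply, ← LinearMap.sum_apply, ← map_sum,
      ← evP_sum, hv1, map_zero]
    rfl
  -- back to the free algebra on `ι`
  have h14 := congrArg (FreeV.lift (F := F) (freeV_isV (F := F) (X := ι))
    (Sum.elim FreeV.of (fun _ => 0))) hfx
  rw [map_evP, map_zero] at h14
  simpa only [gX, FreeV.lift_of, Sum.elim_inl] using h14

end main

/-- **Part B.** -/
theorem partB (hV : PartV.{u}) (h1 : PartB1.{u, 0}) (h4 : PartB4.{u}) : PartB.{u, v} := by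
  intro F _ _ ι _ _ f hf a0 b0 c0 ha hb hc hid B _ _ _ _ hB x
  exact holds_of_free (main_ind hV h1 h4 F a0 b0 c0 ha hb hc _ ι rfl f hf hid) hB x

end Pool.Agent.Hhelper78.Malcev
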